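import Pool.Agent.Run7.h894.LK.Stm

/-!
# Pieces EIG and LAR1 of project LK (helper894), MP_cfe56d_mp
-/

open scoped Matrix ComplexOrder
open MeasureTheory Set

namespace Pool.Agent.Run7.h593.LK

open Pool.Agent.Run7.H894.LK LTd Polynomial

/-- the eigenvalues of a real symmetric matrix, as a complex matrix -/
theorem t_EIG : S_EIG := by
  intro n H U e ⟨hU1, hU2, hH⟩ h f
  -- the characteristic polynomial of `H`
  have h1 : H.charpoly = ∏ i, (X - C (e i)) := by
    have e1 : H.charpoly = (Matrix.diagonal e).charpoly := by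
      rw [hH]
      have := Matrix.charpoly_mul_comm (U * Matrix.diagonal e) Uᵀ
      rw [this, ← Matrix.mul_assoc, hU2, Matrix.one_mul]
    rw [e1, Matrix.charpoly_diagonal]
  have h2 : (H.map (fun x : ℝ => (x : ℂ))).charpoly = ∏ i, (X - C ((e i : ℝ) : ℂ)) := by
    have e1 : H.map (fun x : ℝ => (x : ℂ)) = H.map (Complex.ofRealHom) := rfl
    rw [e1, Matrix.charpoly_map, h1, Polynomial.map_prod]
    refine Finset.prod_congr rfl fun i _ => ?_
    simp
  have h3 := h.roots_charpoly_eq_eigenvalues
  have h4 : (∏ i, (X - C ((e i : ℝ) : ℂ))).roots =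
      Multiset.map (fun i => ((e i : ℝ) : ℂ)) Finset.univ.val := by
    have : (∏ i, (X - C ((e i : ℝ) : ℂ))) =
        (Multiset.map (fun a => X - C a)
          (Multiset.map (fun i => ((e i : ℝ) : ℂ)) Finset.univ.val)).prod := by
      rw [Multiset.map_map]
      rfl
    rw [this, Polynomial.roots_multiset_prod_X_sub_C]
  rw [h2, h4] at h3
  have h5 := congrArg (Multiset.map Complex.re) h3
  rw [Multiset.map_map, Multiset.map_map] at h5
  have h6 : Multiset.map e Finset.univ.val = Multiset.map h.eigenvalues Finset.univ.val := by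
    convert h5 using 2 <;> simp
  have h7 := congrArg (fun s => (Multiset.map f s).sum) h6
  simp only [Multiset.map_map] at h7
  exact h7.symm

/-- spectral decomposition of a real symmetric matrix -/
theorem exists_spec {n : ℕ} (H : Mat n) (hH : ∀ i j, H i j = H j i) :
    ∃ (U : Mat n) (e : Fin n → ℝ), Spec H U e := by
  have hh : H.IsHermitian := by
    ext i j
    rw [Matrix.conjTranspose_apply, star_trivial]
    exact hH j i
  refine ⟨hh.eigenvectorUnitary, hh.eigenvalues, ?_, ?_, ?_⟩
  · have := (Matrix.mem_unitaryGroup_iff).1 hh.eigenvectorUnitary.2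
    rw [Matrix.star_eq_conjTranspose, Matrix.conjTranspose_eq_transpose_of_trivial] at this
    exact this
  · have := (Matrix.mem_unitaryGroup_iff').1 hh.eigenvectorUnitary.2
    rw [Matrix.star_eq_conjTranspose, Matrix.conjTranspose_eq_transpose_of_trivial] at this
    exact this
  · have h1 := hh.spectral_theorem
    rw [Unitary.conjStarAlgAut_apply] at h1
    rw [Matrix.star_eq_conjTranspose, Matrix.conjTranspose_eq_transpose_of_trivial] at h1
    exact h1

/-- the form of the complexified matrix at real vectors -/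
theorem form_real {n : ℕ} (M : Mat n) (u v : Fin n → ℝ) :
    star (fun i => ((u i : ℝ) : ℂ)) ⬝ᵥ (M.map (fun x : ℝ => (x : ℂ)) *ᵥ fun i => ((v i : ℝ) : ℂ)) =
      ((bf M u v : ℝ) : ℂ) := by
  unfold bf dotProduct Matrix.mulVec dotProduct
  push_cast
  refine Finset.sum_congr rfl fun i _ => ?_
  rw [Finset.mul_sum]
  refine Finset.sum_congr rfl fun j _ => ?_
  simp only [Pi.star_apply, Matrix.map_apply, RCLike.star_def, Complex.conj_ofReal]
  ring

theorem bf_add_left {n : ℕ} (M : Mat n) (u u' v : Fin n → ℝ) :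
    bf M (u + u') v = bf M u v + bf M u' v := by
  unfold bf
  rw [← Finset.sum_add_distrib]
  refine Finset.sum_congr rfl fun i _ => ?_
  rw [← Finset.sum_add_distrib]
  refine Finset.sum_congr rfl fun j _ => ?_
  simp only [Pi.add_apply]
  ring

/-- the complexification of a positive definite matrix is positive definite -/
theorem posdef_map {n : ℕ} (M : Mat n) (hM : Pos M) :
    (M.map (fun x : ℝ => (x : ℂ))).PosDef := by
  apply Matrix.PosDef.of_dotProduct_mulVec_pos
  · ext i j
    rw [Matrix.conjTranspose_apply, Matrix.map_apply, Matrix.map_apply, RCLike.star_def,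
      Complex.conj_ofReal, hM.1 j i]
  · intro x hx
    obtain ⟨u, hu⟩ : ∃ u : Fin n → ℝ, u = fun i => (x i).re := ⟨_, rfl⟩
    obtain ⟨w, hw⟩ : ∃ w : Fin n → ℝ, w = fun i => (x i).im := ⟨_, rfl⟩
    have hxuw : ∀ i, x i = (u i : ℂ) + (w i : ℂ) * Complex.I := by
      intro i
      rw [hu, hw]
      exact (Complex.re_add_im (x i)).symm
    have key : star x ⬝ᵥ (M.map (fun x : ℝ => (x : ℂ)) *ᵥ x) =
        ((bf M u u + bf M w w : ℝ) : ℂ) := by
      have e1 : star x ⬝ᵥ (M.map (fun x : ℝ => (x : ℂ)) *ᵥ x) =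
          ∑ i, ∑ j, ((u i : ℂ) - (w i : ℂ) * Complex.I) * ((u j : ℂ) + (w j : ℂ) * Complex.I) *
            (M i j : ℂ) := by
        unfold dotProduct Matrix.mulVec dotProduct
        refine Finset.sum_congr rfl fun i _ => ?_
        rw [Finset.mul_sum]
        refine Finset.sum_congr rfl fun j _ => ?_
        have : star x i = (u i : ℂ) - (w i : ℂ) * Complex.I := by
          rw [Pi.star_apply, hxuw i, RCLike.star_def]
          simp [sub_eq_add_neg]
        rw [this]
        show ((u i : ℂ) - (w i : ℂ) * Complex.I) * ((M i j : ℂ) * x j) = _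
        rw [hxuw j]
        ring
      have e2 : (∑ i, ∑ j, ((u i : ℂ) - (w i : ℂ) * Complex.I) *
            ((u j : ℂ) + (w j : ℂ) * Complex.I) * (M i j : ℂ)) =
          (∑ i, ∑ j, ((u i : ℂ) * (u j : ℂ) + (w i : ℂ) * (w j : ℂ)) * (M i j : ℂ)) +
          Complex.I * ((∑ i, ∑ j, (u i : ℂ) * (w j : ℂ) * (M i j : ℂ)) -
            ∑ i, ∑ j, (w i : ℂ) * (u j : ℂ) * (M i j : ℂ)) := by
        rw [mul_sub, Finset.mul_sum, Finset.mul_sum, ← Finset.sum_sub_distrib,
          ← Finset.sum_add_distrib]
        refine Finset.sum_congr rfl fun i _ => ?_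
        rw [Finset.mul_sum, Finset.mul_sum, ← Finset.sum_sub_distrib, ← Finset.sum_add_distrib]
        refine Finset.sum_congr rfl fun j _ => ?_
        have hI : Complex.I * Complex.I = -1 := Complex.I_mul_I
        linear_combination (-(w i : ℂ) * (w j : ℂ) * (M i j : ℂ)) * hI
      have e3 : (∑ i, ∑ j, (w i : ℂ) * (u j : ℂ) * (M i j : ℂ)) =
          ∑ i, ∑ j, (u i : ℂ) * (w j : ℂ) * (M i j : ℂ) := by
        rw [Finset.sum_comm]
        refine Finset.sum_congr rfl fun i _ => Finset.sum_congr rfl fun j _ => ?_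
        rw [hM.1 j i]
        ring
      rw [e1, e2, e3, sub_self, mul_zero, add_zero]
      unfold bf
      push_cast
      rw [← Finset.sum_add_distrib]
      refine Finset.sum_congr rfl fun i _ => ?_
      rw [← Finset.sum_add_distrib]
      refine Finset.sum_congr rfl fun j _ => ?_
      ring
    rw [key]
    have hpos : 0 < bf M u u + bf M w w := by
      have hnn : ∀ v : Fin n → ℝ, 0 ≤ bf M v v := by
        intro v
        by_cases hv : v = 0
        · rw [hv]
          unfold bf
          simp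
        · exact (hM.2 v hv).le
      by_cases h0 : u = 0
      · have hw0 : w ≠ 0 := by
          intro hw0
          apply hx
          funext i
          rw [hxuw i, h0, hw0]
          simp
        have := hM.2 w hw0
        have := hnn u
        linarith
      · have := hM.2 u h0
        have := hnn w
        linarith
    exact_mod_cast hpos

/-- the real form of the inequality for matrices -/
theorem t_LAR1 (hLA : Pool.Agent.N537.RS.S_LA) (hEIG : S_EIG) : S_LAR1 := by
  intro k hk n A M hA hM Λ g N hg v hv Ψ hΨ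
  have hAc : (A.map (fun x : ℝ => (x : ℂ))).IsHermitian := by
    ext i j
    rw [Matrix.conjTranspose_apply, Matrix.map_apply, Matrix.map_apply, RCLike.star_def,
      Complex.conj_ofReal, hA j i]
  have hmap : ∀ τ : ℝ, A.map (fun x : ℝ => (x : ℂ)) + (τ : ℂ) • M.map (fun x : ℝ => (x : ℂ)) =
      (A + τ • M).map (fun x : ℝ => (x : ℂ)) := by
    intro τ
    ext i j
    simp
  have hsym : ∀ τ : ℝ, ∀ i j, (A + τ • M) i j = (A + τ • M) j i := by
    intro τ i j
    simp only [Matrix.add_apply, Matrix.smul_apply]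
    rw [hA i j, hM.1 i j]
  have hH : ∀ τ : ℝ, (A.map (fun x : ℝ => (x : ℂ)) +
      (τ : ℂ) • M.map (fun x : ℝ => (x : ℂ))).IsHermitian := by
    intro τ
    rw [hmap]
    ext i j
    rw [Matrix.conjTranspose_apply, Matrix.map_apply, Matrix.map_apply, RCLike.star_def,
      Complex.conj_ofReal, hsym τ j i]
  have h := hLA k hk n (A.map (fun x : ℝ => (x : ℂ))) (M.map (fun x : ℝ => (x : ℂ))) hAc
    (posdef_map M hM) Λ g N hg (fun l a i => ((v l a i : ℝ) : ℂ)) (by
      intro l hl a b
      rw [form_real, hv l hl a b]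
      split_ifs <;> simp) hH
  have e1 : ∀ l, ∑ a, (star (fun i => ((v l a i : ℝ) : ℂ)) ⬝ᵥ (A.map (fun x : ℝ => (x : ℂ)) *ᵥ
      fun i => ((v l a i : ℝ) : ℂ))).re = ∑ a, bf A (v l a) (v l a) := by
    intro l
    refine Finset.sum_congr rfl fun a _ => ?_
    rw [form_real, Complex.ofReal_re]
  have e2 : ∀ l, ∑ a, (star (fun i => ((v l a i : ℝ) : ℂ)) ⬝ᵥ
      (fun i => ((v l a i : ℝ) : ℂ))).re = ∑ a, ∑ i, v l a i ^ 2 := by
    intro l
    refine Finset.sum_congr rfl fun a _ => ?_
    unfold dotProduct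
    rw [Complex.re_sum]
    refine Finset.sum_congr rfl fun i _ => ?_
    rw [Pi.star_apply, RCLike.star_def, Complex.conj_ofReal, ← Complex.ofReal_mul,
      Complex.ofReal_re]
    ring
  simp only [e1, e2] at h
  refine h.trans ?_
  refine mul_le_mul_right ?_ _
  refine setLIntegral_mono' measurableSet_Ioi fun τ hτ => ?_
  obtain ⟨U, e, hS⟩ := exists_spec (A + τ • M) (hsym τ)
  have h2 := hΨ τ hτ U e hS
  refine le_trans (le_of_eq ?_) h2
  have hh : ((A + τ • M).map (fun x : ℝ => (x : ℂ))).IsHermitian := by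
    rw [← hmap]
    exact hH τ
  have h3 := hEIG n (A + τ • M) U e hS hh
    (fun x => ENNReal.ofReal ((max (-x) 0) ^ (((k : ℝ) - 1) / 2)))
  rw [← h3]
  congr 1
  funext i
  congr 5
  exact hmap τ

end Pool.Agent.Run7.h593.LK
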