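import Pool.Agent.Run7.h894.LK.Stm

/-!
# Pieces YOU and JEN of project LK (helper894), MP_cfe56d_mp
-/

open scoped Matrix

namespace Pool.Agent.Run7.h593.LK

open Pool.Agent.Run7.H894.LK LTd

/-- Young -/
theorem t_YOU : S_YOU := by
  constructor
  · intro G b x w hG hb hx
    have hG0 : 0 < G := by linarith
    have hG1 : 0 < G - 1 := by linarith
    obtain ⟨p, hp⟩ : ∃ p, p = G / (G - 1) := ⟨_, rfl⟩
    have hp1 : 1 < p := by
      rw [hp, lt_div_iff₀ hG1]
      linarith
    have hp0 : 0 < p := by linarith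
    have hconj : p.HolderConjugate G := by
      rw [Real.holderConjugate_iff]
      refine ⟨hp1, ?_⟩
      rw [hp]
      field_simp
      ring
    have hpb : 0 < p * b := by positivity
    have hw : 0 ≤ max w 0 := le_max_right _ _
    have h1 := Real.young_inequality_of_nonneg (a := (p * b) ^ (1 / p) * x)
      (b := max w 0 * (p * b) ^ (-(1 / p))) (by positivity) (by positivity) hconj
    have e1 : (p * b) ^ (1 / p) * x * (max w 0 * (p * b) ^ (-(1 / p))) = max w 0 * x := by
      have : (p * b) ^ (1 / p) * (p * b) ^ (-(1 / p)) = 1 := by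
        rw [← Real.rpow_add hpb]
        simp
      calc _ = ((p * b) ^ (1 / p) * (p * b) ^ (-(1 / p))) * (max w 0 * x) := by ring
        _ = _ := by rw [this, one_mul]
    have e2 : ((p * b) ^ (1 / p) * x) ^ p / p = b * x ^ pp G := by
      rw [Real.mul_rpow (by positivity) hx, ← Real.rpow_mul hpb.le, one_div,
        inv_mul_cancel₀ hp0.ne', Real.rpow_one]
      have : pp G = p := by rw [hp]; rfl
      rw [this]
      field_simp
    have e3 : (max w 0 * (p * b) ^ (-(1 / p))) ^ G / G = cc G * b ^ (1 - G) * (max w 0) ^ G := by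
      rw [Real.mul_rpow hw (by positivity), ← Real.rpow_mul hpb.le]
      have : -(1 / p) * G = 1 - G := by
        rw [hp]
        field_simp
        ring
      rw [this, Real.mul_rpow hp0.le hb.le]
      have h2 : p ^ (1 - G) / G = cc G := by
        unfold cc
        rw [hp, Real.div_rpow hG0.le hG1.le]
        have h3 : (G - 1) ^ (1 - G) = ((G - 1) ^ (G - 1))⁻¹ := by
          rw [← Real.rpow_neg hG1.le]
          congr 1
          ring
        have h4 : G ^ (1 - G) = G * (G ^ G)⁻¹ := by
          rw [Real.rpow_sub hG0, Real.rpow_one]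
          rfl
        rw [h3, h4]
        have h5 : (G - 1) ^ (G - 1) ≠ 0 := (Real.rpow_pos_of_pos hG1 _).ne'
        have h6 : G ^ G ≠ 0 := (Real.rpow_pos_of_pos hG0 _).ne'
        field_simp
      rw [← h2]
      ring
    rw [e1, e2, e3] at h1
    refine le_trans ?_ h1
    exact mul_le_mul_of_nonneg_right (le_max_left _ _) hx
  · intro G e hG he
    have hG0 : 0 < G := by linarith
    have hG1 : 0 < G - 1 := by linarith
    rcases he.eq_or_lt with h | h
    · rw [← h]
      have e1 : (0 : ℝ) ^ (G - 1) = 0 := Real.zero_rpow hG1.ne'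
      have e2 : (0 : ℝ) ^ G = 0 := Real.zero_rpow hG0.ne'
      have e3 : (0 : ℝ) ^ pp G = 0 := by
        apply Real.zero_rpow
        unfold pp
        positivity
      rw [mul_zero, e1, e3, e2]
      simp
    · obtain ⟨u, hu⟩ : ∃ u, u = (G - 1) / G * e := ⟨_, rfl⟩
      have hu0 : 0 < u := by rw [hu]; positivity
      rw [← hu, ← Real.rpow_mul hu0.le]
      have e1 : (G - 1) * pp G = G := by
        unfold pp
        field_simp
      rw [e1]
      have e2 : u ^ G = u ^ (G - 1) * u := by
        rw [← Real.rpow_add_one hu0.ne']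
        congr 1
        ring
      have e3 : e * u ^ (G - 1) - u ^ G = u ^ (G - 1) * (e / G) := by
        rw [e2, hu]
        field_simp
        ring
      rw [e3, hu, Real.mul_rpow (by positivity) h.le, Real.div_rpow hG1.le hG0.le]
      unfold cc
      have e4 : e ^ G = e ^ (G - 1) * e := by
        rw [← Real.rpow_add_one h.ne']
        congr 1
        ring
      have e5 : G ^ G = G ^ (G - 1) * G := by
        rw [← Real.rpow_add_one hG0.ne']
        congr 1
        ring
      rw [e4, e5]
      have h6 : G ^ (G - 1) ≠ 0 := (Real.rpow_pos_of_pos hG0 _).ne'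
      field_simp

/-- Jensen for subprobability weights -/
theorem sub_jensen {n : ℕ} (w z : Fin n → ℝ) (hw : ∀ i, 0 ≤ w i) (hs : ∑ i, w i ≤ 1)
    (hz : ∀ i, 0 ≤ z i) (p : ℝ) (hp : 1 ≤ p) : (∑ i, w i * z i) ^ p ≤ ∑ i, w i * z i ^ p := by
  have h := Real.rpow_arith_mean_le_arith_mean_rpow (Finset.univ : Finset (Option (Fin n)))
    (fun o => o.elim (1 - ∑ i, w i) w) (fun o => o.elim 0 z) (by
      intro o _
      cases o with
      | none => simpa using hs
      | some i => exact hw i) (by
      rw [Fintype.sum_option]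
      simp) (by
      intro o _
      cases o with
      | none => simp
      | some i => exact hz i) hp
  rw [Fintype.sum_option, Fintype.sum_option] at h
  simp only [Option.elim_none, Option.elim_some, mul_zero, zero_add] at h
  rw [Real.zero_rpow (by linarith), mul_zero, zero_add] at h
  exact h

/-- Bessel and convexity -/
theorem t_JEN : S_JEN := by
  intro n Y V r p hp hr ⟨hV1, hV2, hY⟩
  obtain ⟨Z, hZ⟩ : ∃ Z, Z = Y * V := ⟨_, rfl⟩
  have hZZ : Zᵀ * Z = Matrix.diagonal r := by
    rw [hZ, Matrix.transpose_mul, Matrix.mul_assoc, ← Matrix.mul_assoc Yᵀ, hY]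
    calc Vᵀ * (V * Matrix.diagonal r * Vᵀ * V) = (Vᵀ * V) * Matrix.diagonal r * (Vᵀ * V) := by
          simp only [Matrix.mul_assoc]
      _ = Matrix.diagonal r := by rw [hV2, Matrix.one_mul, Matrix.mul_one]
  have hYY : Y * Yᵀ = Z * Zᵀ := by
    rw [hZ, Matrix.transpose_mul]
    calc Y * Yᵀ = Y * (V * Vᵀ) * Yᵀ := by rw [hV1, Matrix.mul_one]
      _ = _ := by simp only [Matrix.mul_assoc]
  have hdot : ∀ i i', ∑ j, Z j i * Z j i' = if i = i' then r i else 0 := by
    intro i i'
    have := congrFun (congrFun hZZ i) i'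
    rw [Matrix.mul_apply, Matrix.diagonal_apply] at this
    exact this
  have hcol : ∀ i, ∑ j, Z j i ^ 2 = r i := by
    intro i
    have := hdot i i
    rw [if_pos rfl] at this
    rw [← this]
    exact Finset.sum_congr rfl fun j _ => by ring
  have hz0 : ∀ i, r i = 0 → ∀ j, Z j i = 0 := by
    intro i hi j
    have h1 := hcol i
    rw [hi] at h1
    have h2 := (Finset.sum_eq_zero_iff_of_nonneg fun j _ => sq_nonneg (Z j i)).1 h1 j
      (Finset.mem_univ j)
    exact pow_eq_zero_iff (two_ne_zero) |>.1 h2
  -- the weights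
  have hs0 : ∀ j i, 0 ≤ Z j i ^ 2 / r i := fun j i => div_nonneg (sq_nonneg _) (hr i)
  have hsr : ∀ j i, Z j i ^ 2 / r i * r i = Z j i ^ 2 := by
    intro j i
    by_cases h : r i = 0
    · rw [hz0 i h j, h]
      simp
    · field_simp
  have hrow : ∀ j, ∑ i, Z j i ^ 2 / r i ≤ 1 := by
    intro j
    obtain ⟨T, hT⟩ : ∃ T, T = ∑ i, Z j i ^ 2 / r i := ⟨_, rfl⟩
    have hT0 : 0 ≤ T := by
      rw [hT]
      exact Finset.sum_nonneg fun i _ => hs0 j i
    have h1 : ∑ l, (∑ i, Z j i / r i * Z l i) ^ 2 = T := by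
      have e1 : ∀ l, (∑ i, Z j i / r i * Z l i) ^ 2 =
          ∑ i, ∑ i', Z j i / r i * (Z j i' / r i') * (Z l i * Z l i') := by
        intro l
        rw [sq, Finset.sum_mul_sum]
        refine Finset.sum_congr rfl fun i _ => Finset.sum_congr rfl fun i' _ => ?_
        ring
      simp only [e1]
      rw [Finset.sum_comm, hT]
      refine Finset.sum_congr rfl fun i _ => ?_
      rw [Finset.sum_comm]
      have e2 : ∀ i', ∑ l, Z j i / r i * (Z j i' / r i') * (Z l i * Z l i') =
          if i = i' then Z j i ^ 2 / r i else 0 := by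
        intro i'
        rw [← Finset.mul_sum, hdot]
        by_cases h : i = i'
        · subst h
          rw [if_pos rfl, if_pos rfl]
          by_cases h0 : r i = 0
          · rw [hz0 i h0 j, h0]
            simp
          · field_simp
        · rw [if_neg h, if_neg h, mul_zero]
      simp only [e2]
      simp
    have h2 : (∑ i, Z j i / r i * Z j i) = T := by
      rw [hT]
      refine Finset.sum_congr rfl fun i _ => ?_
      ring
    have h3 : T ^ 2 ≤ T := by
      have := Finset.single_le_sum (f := fun l => (∑ i, Z j i / r i * Z l i) ^ 2)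
        (fun l _ => sq_nonneg _) (Finset.mem_univ j)
      rw [h1] at this
      simp only [h2] at this
      exact this
    rw [← hT]
    nlinarith
  have hcol' : ∀ i, ∑ j, Z j i ^ 2 / r i ≤ 1 := by
    intro i
    rw [← Finset.sum_div, hcol]
    exact div_self_le_one _
  rw [hYY]
  have hdiag : ∀ j, (Z * Zᵀ) j j = ∑ i, Z j i ^ 2 / r i * r i := by
    intro j
    rw [Matrix.mul_apply]
    refine Finset.sum_congr rfl fun i _ => ?_
    rw [hsr, Matrix.transpose_apply]
    ring
  calc ∑ j, ((Z * Zᵀ) j j) ^ p ≤ ∑ j, ∑ i, Z j i ^ 2 / r i * r i ^ p := by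
        refine Finset.sum_le_sum fun j _ => ?_
        rw [hdiag]
        exact sub_jensen _ _ (hs0 j) (hrow j) hr p hp
    _ = ∑ i, (∑ j, Z j i ^ 2 / r i) * r i ^ p := by
        rw [Finset.sum_comm]
        refine Finset.sum_congr rfl fun i _ => ?_
        rw [Finset.sum_mul]
    _ ≤ ∑ i, 1 * r i ^ p := by
        refine Finset.sum_le_sum fun i _ => ?_
        exact mul_le_mul_of_nonneg_right (hcol' i) (Real.rpow_nonneg (hr i) p)
    _ = ∑ i, r i ^ p := by simp

end Pool.Agent.Run7.h593.LK
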